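import Mathlib

/-!
Generator of the contact process (neighbour function `N`, rate `lam`) on finite configurations,
occupation times `occ` of the process confined to a finite set, and the tree of cliques used for
MP_2b201f_pr.
-/

namespace W817.CP

open Finset

section General

variable {V : Type} [DecidableEq V]

/-- Generator of the contact process acting on a function of the finite configuration. -/
noncomputable def gen (N : V → Finset V) (lam : ℝ) (f : Finset V → ℝ) (X : Finset V) : ℝ :=
  ∑ x ∈ X, ((f (X.erase x) - f X) + lam * ∑ y ∈ N x, (f (insert y X) - f X))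

/-- Neighbour function of the graph induced on `H` (vertices outside `H` are isolated). -/
def rst (N : V → Finset V) (H : Finset V) (x : V) : Finset V :=
  if x ∈ H then N x ∩ H else ∅

/-- `1` if `z ∈ Z`, else `0`. -/
noncomputable def ind (z : V) (Z : Finset V) : ℝ := if z ∈ Z then 1 else 0

/-- `e Z` is the expected total time that `z` is infected, for the process on `H` started from
`Z ∩ H`. -/
def IsOcc (N : V → Finset V) (lam : ℝ) (H : Finset V) (z : V) (e : Finset V → ℝ) : Prop :=
  e ∅ = 0 ∧ (∀ Z, e Z = e (Z ∩ H)) ∧ ∀ Z, gen (rst N H) lam e Z = - ind z Z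

open Classical in
/-- The occupation time function. -/
noncomputable def occ (N : V → Finset V) (lam : ℝ) (H : Finset V) (z : V) : Finset V → ℝ :=
  if h : ∃ e, IsOcc N lam H z e then Classical.choose h else 0

end General

section Numbers

/-- Neighbours on the path `ℕ`. -/
def pathN (i : ℕ) : Finset ℕ := {i - 1, i + 1}

/-- Expected time that `d` is infected on the path `1, …, d` started from `{1}`. -/
noncomputable def eps (lam : ℝ) (d : ℕ) : ℝ := occ pathN lam (Icc 1 d) d {1}

/-- `T lam 1 = 1`, `T lam (n + 1) = 1 + n lam T lam n`. -/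
noncomputable def T (lam : ℝ) : ℕ → ℝ
  | 0 => 0
  | n + 1 => 1 + n * lam * T lam n

/-- Slightly larger rate. -/
noncomputable def lamp (lam : ℝ) (n : ℕ) : ℝ := lam * (1 + 2 / ((n : ℝ) - 1))

/-- The function of the number of infected vertices used on a clique of size `n`. -/
noncomputable def U (lam : ℝ) (n m : ℕ) : ℝ := ∑ j ∈ range m, T (lamp lam n) (n - j)

/-- `(4/3) U lam n 1`. -/
noncomputable def uh (lam : ℝ) (n : ℕ) : ℝ := 4 / 3 * U lam n 1

/-- Upper bound for the mean occupation time of the far end of a link. -/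
noncomputable def eb (lam : ℝ) (g d : ℕ) : ℝ := 2 * (11 / 10 * lam) ^ g * lam * eps lam d

noncomputable def rho (lam : ℝ) (n j : ℕ) : ℝ :=
  ((n - 1 - j).factorial : ℝ) / (lam ^ j * (n - 1).factorial)

/-- Probability that the number of infected vertices of a clique of size `n` reaches `n` before
`0`, from `m`. -/
noncomputable def sfn (lam : ℝ) (n m : ℕ) : ℝ :=
  (∑ j ∈ range m, rho lam n j) / (∑ j ∈ range n, rho lam n j)

/-- Subharmonic function for reaching half of a clique of size `n`. -/
noncomputable def Wf (lam : ℝ) (n m : ℕ) : ℝ :=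
  if m = 0 then 0 else 1 / 4 + 4 / (lam * n) * ∑ i ∈ range (m - 1), (1 : ℝ) / (i + 1)

/-- Values used for the stage estimates. -/
noncomputable def kap (lam : ℝ) : ℝ := lam / (1 + 3 * lam)

/-- Forward stage (branching `c`, depth `g`, path length `d`). -/
noncomputable def piF (lam : ℝ) (c g d : ℕ) : ℝ :=
  (c * lam / (1 + (c + 1) * lam)) ^ g * (lam / (1 + 2 * lam)) * (kap lam / 8) * eps lam d

/-- Backward stage. -/
noncomputable def piB (lam : ℝ) (g d : ℕ) : ℝ :=
  (lam / (1 + 2 * lam)) ^ (g + 1) / 4 * kap lam * eps lam d / (1 + 2 * lam * d)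

/-- Success probability of a stage from a half full clique of size `n`. -/
noncomputable def qst (lam pi : ℝ) (n : ℕ) : ℝ :=
  (pi * (lam * T lam n / n)) / (1 + pi * (lam * T lam n / n)) * sfn lam n ((n + 1) / 2)

end Numbers

section Graph

/-- Vertices: `cl k v j` vertex `j` of clique `(k, v)`; `sp k j v` vertex at level `j` of the
ternary splitters below level `k`; `pa k v i` vertex `i` of the path ending at clique
`(k + 1, v)`. -/
inductive Vx where
  | cl (k v j : ℕ) : Vx
  | sp (k j v : ℕ) : Vx
  | pa (k v i : ℕ) : Vx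
deriving DecidableEq

open Vx

/-- Clique sizes, splitter depths, path lengths. -/
structure Par where
  n : ℕ → ℕ
  g : ℕ → ℕ
  d : ℕ → ℕ

namespace Par

variable (p : Par)

/-- Number of cliques at level `k`. -/
def B : ℕ → ℕ
  | 0 => 1
  | k + 1 => 3 ^ (p.g k) * B k

/-- The vertices that are present. -/
def Val : Vx → Prop
  | cl k v j => j < p.n k ∧ v < p.B k
  | sp k j v => j ≤ p.g k ∧ v < 3 ^ j * p.B k
  | pa k v i => 1 ≤ i ∧ i ≤ p.d k ∧ v < p.B (k + 1)

instance : DecidablePred p.Val := fun x => by
  cases x <;> (unfold Val; infer_instance)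

/-- Neighbours of a vertex that is present. -/
def nb0 : Vx → Finset Vx
  | cl k v j => ((range (p.n k)).erase j).image (cl k v) ∪
      (if j = 0 then {sp k 0 v} ∪ (if k = 0 then ∅ else {pa (k - 1) v (p.d (k - 1))}) else ∅)
  | sp k j v => (if j = 0 then {cl k v 0} else {sp k (j - 1) (v / 3)}) ∪
      (if j < p.g k then {sp k (j + 1) (3 * v), sp k (j + 1) (3 * v + 1), sp k (j + 1) (3 * v + 2)}
        else {pa k v 1})
  | pa k v i => (if i ≤ 1 then {sp k (p.g k) v} else {pa k v (i - 1)}) ∪
      (if i < p.d k then {pa k v (i + 1)} else {cl (k + 1) v 0})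

/-- Neighbour function. -/
def nb (x : Vx) : Finset Vx := if p.Val x then p.nb0 x else ∅

/-- Clique `(k, v)`. -/
def Q (k v : ℕ) : Finset Vx := (range (p.n k)).image (cl k v)

/-- Path ending at clique `(k + 1, u)`. -/
def P (k u : ℕ) : Finset Vx := (Icc 1 (p.d k)).image (pa k u)

/-- Splitter vertices below clique `(k, v)`. -/
def S (k v : ℕ) : Finset Vx :=
  (range (p.g k + 1)).biUnion fun j => (range (3 ^ j)).image fun w => sp k j (3 ^ j * v + w)

/-- The link below clique `(k, v)`: splitter and paths. -/
def D (k v : ℕ) : Finset Vx :=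
  p.S k v ∪ (range (3 ^ p.g k)).biUnion fun w => p.P k (3 ^ p.g k * v + w)

/-- The standing assumptions on the parameters. -/
structure Ok : Prop where
  n_ge : ∀ k, 2 ≤ p.n k
  d_ge : ∀ k, 1 ≤ p.d k

/-- Infection pressure of the adjacent links on clique `(k, v)`. -/
noncomputable def press (lam : ℝ) (k v : ℕ) (X : Finset Vx) : ℝ :=
  lam * occ p.nb lam (p.D k v) (sp k 0 v) X +
    (if k = 0 then 0 else
      lam * occ p.nb lam (p.D (k - 1) (v / 3 ^ p.g (k - 1))) (pa (k - 1) v (p.d (k - 1))) X)

/-- The local Lyapunov function at clique `(k, v)`. -/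
noncomputable def F (lam : ℝ) (k v : ℕ) (X : Finset Vx) : ℝ :=
  if (X ∩ p.Q k v).Nonempty then U lam (p.n k) (X ∩ p.Q k v).card + U lam (p.n k) 1 / 3
  else uh lam (p.n k) * p.press lam k v X

/-- Number of infected cliques at level `k`. -/
noncomputable def J (k : ℕ) (X : Finset Vx) : ℝ :=
  ∑ v ∈ range (p.B k), if (X ∩ p.Q k v).Nonempty then 1 else 0

end Par

/-- Level of a vertex. -/
def lev : Vx → ℕ
  | cl k _ _ => k
  | sp k _ _ => k
  | pa k _ _ => k

/-- Is a splitter or path vertex. -/
def isLink : Vx → Bool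
  | cl _ _ _ => false
  | sp _ _ _ => true
  | pa _ _ _ => true

/-- Number of infected splitter or path vertices. -/
noncomputable def Lk (X : Finset Vx) : ℝ := ((X.filter fun x => isLink x = true).card : ℝ)

end Graph

end W817.CP
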