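import Mathlib

/-!
The contact process on a locally finite graph, started from a finite set, as a continuous time
Markov chain on the finite sets of vertices: embedded jump chain and exponential holding times.
The graph enters through its neighbour function `N : V → Finset V`.
-/

namespace W817.CP

open MeasureTheory ProbabilityTheory
open scoped NNReal ENNReal

variable {V : Type} [DecidableEq V]

/-- Total rate at which the configuration `X` of infected vertices changes: each infected vertex
recovers at rate one and infects each of its healthy neighbours at rate `lam`.  At the absorbing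
state `∅` the clock is given rate one (it rings without effect). -/
noncomputable def rate (N : V → Finset V) (lam : ℝ≥0) (X : Finset V) : ℝ :=
  if X = ∅ then 1 else ∑ x ∈ X, (1 + (lam : ℝ) * ((N x \ X).card : ℝ))

/-- Law of the next configuration: from `X ≠ ∅` each recovery of an `x ∈ X` has probability
`1 / rate` and each infection of a healthy neighbour `y` by an `x ∈ X` has probability
`lam / rate`; the state `∅` is absorbing. -/
noncomputable def jumpLaw (N : V → Finset V) (lam : ℝ≥0) (X : Finset V) : Measure (Finset V) :=
  if X = ∅ then Measure.dirac ∅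
  else ∑ x ∈ X,
    (ENNReal.ofReal (1 / rate N lam X) • Measure.dirac (X.erase x) +
      ∑ y ∈ N x \ X, ENNReal.ofReal ((lam : ℝ) / rate N lam X) • Measure.dirac (insert y X))

/-- One step of the Markov chain from `X`: the next configuration and, independently of it, the
holding time at `X`, exponential with parameter `rate N lam X`. -/
noncomputable def stepLaw (N : V → Finset V) (lam : ℝ≥0) (X : Finset V) :
    Measure (Finset V × ℝ) :=
  (jumpLaw N lam X).prod (expMeasure (rate N lam X))

/-- The probability space: `ω n X` is the outcome of step `n` if the chain is then at `X`; all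
the outcomes `ω n X` are independent, and `ω n X` has the law `stepLaw N lam X`. -/
noncomputable def pathLaw (N : V → Finset V) (lam : ℝ≥0) : Measure (ℕ → Finset V → Finset V × ℝ) :=
  Measure.infinitePi fun _ : ℕ => Measure.infinitePi fun X : Finset V => stepLaw N lam X

/-- The embedded chain started from `X₀`. -/
def st (X₀ : Finset V) (ω : ℕ → Finset V → Finset V × ℝ) : ℕ → Finset V
  | 0 => X₀
  | n + 1 => (ω n (st X₀ ω n)).1

/-- The time of the `n`-th jump. -/
def jt (X₀ : Finset V) (ω : ℕ → Finset V → Finset V × ℝ) : ℕ → ℝ
  | 0 => 0
  | n + 1 => jt X₀ ω n + (ω n (st X₀ ω n)).2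

/-- `X` is the set of infected vertices at time `t`. -/
def At (X₀ : Finset V) (ω : ℕ → Finset V → Finset V × ℝ) (t : ℝ) (X : Finset V) : Prop :=
  ∃ n, jt X₀ ω n ≤ t ∧ t < jt X₀ ω (n + 1) ∧ st X₀ ω n = X

/-- Global survival from `{o}`: with positive probability there are infected vertices at every
time. -/
def SurvGlob (N : V → Finset V) (lam : ℝ≥0) (o : V) : Prop :=
  0 < pathLaw N lam {ω | ∀ t : ℝ, 0 ≤ t → ∃ X, At {o} ω t X ∧ X ≠ ∅}

/-- Local survival from `{o}`: with positive probability `o` is infected at arbitrarily large
times. -/
def SurvLoc (N : V → Finset V) (lam : ℝ≥0) (o : V) : Prop :=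
  0 < pathLaw N lam {ω | ∀ s : ℝ, ∃ t, s ≤ t ∧ ∃ X, At {o} ω t X ∧ o ∈ X}

end W817.CP
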