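import Pool.Agent.W817.CP.Defs
import Pool.Agent.W817.CP.Proc

/-!
Exact statements of the parts of the proof (project CPX, MP_2b201f_pr).
-/

namespace W817.CP

open Finset

/-! ### Occupation times -/

/-- Maximum principle on the subsets of `H`. -/
def S_MP : Prop := ∀ (V : Type) [DecidableEq V] (N : V → Finset V) (lam : ℝ) (H : Finset V)
  (w : Finset V → ℝ) (B : Finset V → Prop), 0 ≤ lam → (∀ Z ⊆ H, B Z → 0 ≤ w Z) → 0 ≤ w ∅ →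
  (∀ Z ⊆ H, ¬ B Z → gen (rst N H) lam w Z ≤ 0) → ∀ Z ⊆ H, 0 ≤ w Z

/-- Existence, sign, comparison. -/
def S_OCC : Prop := ∀ (V : Type) [DecidableEq V] (N : V → Finset V) (lam : ℝ) (H : Finset V)
  (z : V), 0 ≤ lam → z ∈ H →
  IsOcc N lam H z (occ N lam H z) ∧ (∀ e, IsOcc N lam H z e → e = occ N lam H z) ∧
  (∀ Z, 0 ≤ occ N lam H z Z) ∧
  (∀ s : Finset V → ℝ, 0 ≤ s ∅ → (∀ Z ⊆ H, gen (rst N H) lam s Z ≤ - ind z Z) →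
    ∀ Z ⊆ H, occ N lam H z Z ≤ s Z) ∧
  (∀ s : Finset V → ℝ, s ∅ ≤ 0 → (∀ Z ⊆ H, - ind z Z ≤ gen (rst N H) lam s Z) →
    ∀ Z ⊆ H, s Z ≤ occ N lam H z Z)

/-- Monotone and subadditive in the initial set. -/
def S_MONO : Prop := ∀ (V : Type) [DecidableEq V] (N : V → Finset V) (lam : ℝ) (H : Finset V)
  (z : V), 0 ≤ lam → z ∈ H →
  (∀ Z Z', Z ⊆ Z' → occ N lam H z Z ≤ occ N lam H z Z') ∧
  (∀ Z Z', occ N lam H z (Z ∪ Z') ≤ occ N lam H z Z + occ N lam H z Z')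

/-- Duality. -/
def S_DUAL : Prop := ∀ (V : Type) [DecidableEq V] (N : V → Finset V) (lam : ℝ) (H : Finset V)
  (y z : V), 0 ≤ lam → y ∈ H → z ∈ H → (∀ a ∈ H, ∀ b ∈ H, b ∈ N a ↔ a ∈ N b) →
  occ N lam H z {y} = occ N lam H y {z}

/-- Monotone in the rate. -/
def S_LAM : Prop := ∀ (V : Type) [DecidableEq V] (N : V → Finset V) (lam lam' : ℝ) (H : Finset V)
  (z : V), 0 ≤ lam → lam ≤ lam' → z ∈ H → ∀ Z, occ N lam H z Z ≤ occ N lam' H z Z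

/-- Monotone in the finite set. -/
def S_HM : Prop := ∀ (V : Type) [DecidableEq V] (N : V → Finset V) (lam : ℝ) (H H' : Finset V)
  (z : V), 0 ≤ lam → H ⊆ H' → z ∈ H → ∀ Z, occ N lam H z Z ≤ occ N lam H' z Z

/-- Invariance under isomorphisms. -/
def S_TR : Prop := ∀ (V V' : Type) [DecidableEq V] [DecidableEq V'] (N : V → Finset V)
  (N' : V' → Finset V') (lam : ℝ) (H : Finset V) (z : V) (σ : V → V'), 0 ≤ lam →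
  Set.InjOn σ H → z ∈ H → (∀ x ∈ H, rst N' (H.image σ) (σ x) = (rst N H x).image σ) →
  ∀ Z ⊆ H, occ N' lam (H.image σ) (σ z) (Z.image σ) = occ N lam H z Z

/-- Exponential decay of occupation times when the degrees are at most four. -/
def S_LIP : Prop := ∀ (V : Type) [DecidableEq V] (N : V → Finset V) (lam : ℝ) (H : Finset V)
  (z : V) (ψ : V → ℕ), 0 < lam → 8 * lam ≤ 1 → z ∈ H → (∀ x ∈ H, (N x ∩ H).card ≤ 4) →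
  ψ z = 0 → (∀ x ∈ H, ∀ y ∈ N x ∩ H, ψ x ≤ ψ y + 1) →
  ∀ Z ⊆ H, occ N lam H z Z ≤ 2 * ∑ y ∈ Z, (8 * lam) ^ ψ y

/-- Generator of the full process applied to an occupation time. -/
def S_GOCC : Prop := ∀ (V : Type) [DecidableEq V] (N : V → Finset V) (lam : ℝ) (H : Finset V)
  (z : V), 0 ≤ lam → z ∈ H → ∀ X,
  gen N lam (occ N lam H z) X ≤
      - ind z X + lam * ∑ x ∈ X \ H, ∑ y ∈ N x ∩ H, occ N lam H z {y} ∧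
  - ind z X ≤ gen N lam (occ N lam H z) X

/-! ### The path -/

def S_EPS : Prop := ∀ lam : ℝ, 0 < lam →
  eps lam 1 = 1 ∧
  (∀ d, 1 ≤ d → lam / (1 + lam) * eps lam d ≤ eps lam (d + 1)) ∧
  (∀ d, 1 ≤ d → 0 < eps lam d) ∧
  (8 * lam ≤ 1 → ∀ d, 1 ≤ d → eps lam d ≤ 2 * (8 * lam) ^ (d - 1)) ∧
  (8 * lam ≤ 1 / 3 → ∀ d, 1 ≤ d → ∀ Z, occ pathN lam (Icc 1 d) d Z ≤ 3 ∧
    occ pathN lam (Icc 1 d) 1 Z ≤ 3) ∧
  (∀ d, 1 ≤ d → occ pathN lam (Icc 1 d) 1 {d} = eps lam d) ∧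
  (∀ lam', lam ≤ lam' → ∀ d, 1 ≤ d → eps lam d ≤ eps lam' d)

/-! ### The clique -/

def S_T : Prop := ∀ lam : ℝ, 0 < lam →
  (∀ n : ℕ, (n.factorial : ℝ) * lam ^ n ≤ T lam (n + 1) ∧
    T lam (n + 1) ≤ n.factorial * lam ^ n * Real.exp (1 / lam)) ∧
  (∀ n : ℕ, 2 ≤ n → T (lamp lam n) n ≤ Real.exp 2 * T lam n) ∧
  (∀ lam' : ℝ, lam ≤ lam' → ∀ n : ℕ, T lam n ≤ T lam' n)

def S_U : Prop := ∀ lam : ℝ, 0 < lam → ∀ n : ℕ, 2 ≤ n →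
  U lam n 0 = 0 ∧ 1 ≤ U lam n 1 ∧ (∀ m m', m ≤ m' → U lam n m ≤ U lam n m') ∧
  ∀ m, 1 ≤ m → m ≤ n →
    (lam * m * (n - m : ℝ) + (if m < n then 2 * lam else 0)) * (U lam n (m + 1) - U lam n m)
      - m * (U lam n m - U lam n (m - 1)) ≤ -1

/-- `H` is a clique. -/
def IsClq {V : Type} [DecidableEq V] (N : V → Finset V) (H : Finset V) : Prop :=
  ∀ x ∈ H, N x ∩ H = H.erase x

def S_CLQ1 : Prop := ∀ (V : Type) [DecidableEq V] (N : V → Finset V) (lam : ℝ) (H : Finset V)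
  (x : V), 0 < lam → IsClq N H → x ∈ H → T lam H.card / H.card ≤ occ N lam H x H

def S_CLQ2 : Prop := ∀ (V : Type) [DecidableEq V] (N : V → Finset V) (lam : ℝ) (H : Finset V)
  (x : V), 0 < lam → IsClq N H → x ∈ H → ∀ Z ⊆ H,
  sfn lam H.card Z.card * occ N lam H x H ≤ occ N lam H x Z

def S_SF : Prop := ∀ lam : ℝ, 0 < lam →
  (∀ n m, 1 ≤ m → m ≤ n → 0 < sfn lam n m ∧ sfn lam n m ≤ 1) ∧
  (∀ n m m', m ≤ m' → sfn lam n m ≤ sfn lam n m') ∧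
  (∃ n0 : ℕ, ∀ n, n0 ≤ n → ∀ m, m ≤ n → n ≤ 2 * m → 1 - 1 / (n : ℝ) ^ 2 ≤ sfn lam n m)

def S_W : Prop := ∀ lam : ℝ, 0 < lam → lam ≤ 1 → ∀ n : ℕ, 2 ≤ n → 16 * (1 + Real.log n) ≤ lam * n →
  Wf lam n 0 = 0 ∧ (∀ m, 1 ≤ m → 1 / 4 ≤ Wf lam n m) ∧ (∀ m, m ≤ n → Wf lam n m ≤ 1) ∧
  (∀ m m', m ≤ m' → Wf lam n m ≤ Wf lam n m') ∧
  ∀ m, 1 ≤ m → 2 * m < n →
    1 ≤ lam * m * (n - m : ℝ) * (Wf lam n (m + 1) - Wf lam n m)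
      - m * (Wf lam n m - Wf lam n (m - 1))

/-! ### Local drift at one clique -/

/-- `Q` a clique of size `n` which is entered from outside only through the vertices `a i`. -/
def S_LOC : Prop := ∀ (V : Type) [DecidableEq V] (N : V → Finset V) (lam : ℝ) (Q : Finset V)
  (I : Finset ℕ) (D : ℕ → Finset V) (a : ℕ → V), 0 < lam → 2 ≤ Q.card → IsClq N Q →
  I.card ≤ 2 → (∀ i ∈ I, a i ∈ D i) →
  (∀ x, x ∉ Q → (N x ∩ Q).card ≤ (I.filter fun i => a i = x).card) →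
  (∀ X, lam * ∑ i ∈ I, occ N lam (D i) (a i) X ≤ 1 / 4) →
  ∀ f : Finset V → ℝ,
  (∀ X, f X = if (X ∩ Q).Nonempty then U lam Q.card (X ∩ Q).card + U lam Q.card 1 / 3
    else uh lam Q.card * (lam * ∑ i ∈ I, occ N lam (D i) (a i) X)) →
  (∀ X, (X ∩ Q).Nonempty → gen N lam f X ≤ -1) ∧
  (∀ X, X ∩ Q = ∅ → gen N lam f X ≤ uh lam Q.card * lam ^ 2 *
    ∑ i ∈ I, ∑ x ∈ X \ D i, ∑ y ∈ N x ∩ D i, occ N lam (D i) (a i) {y})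

/-! ### The links of the concrete graph -/

def S_LINK : Prop := ∀ (p : Par), p.Ok → ∀ lam : ℝ, 0 < lam → lam ≤ 1 / 500 →
  ∀ k v, v < p.B k →
  (∀ Z, occ p.nb lam (p.D k v) (Vx.sp k 0 v) Z ≤ 3) ∧
  (∀ w, w < 3 ^ p.g k → ∀ u, u = 3 ^ p.g k * v + w →
    occ p.nb lam (p.D k v) (Vx.sp k 0 v) {Vx.pa k u (p.d k)} ≤ eb lam (p.g k) (p.d k) ∧
    occ p.nb lam (p.D k v) (Vx.pa k u (p.d k)) {Vx.sp k 0 v} ≤ eb lam (p.g k) (p.d k) ∧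
    (3 ^ (p.g k + 1) * (8 * lam) ^ p.d k ≤ 1 / 10 →
      ∀ Z, occ p.nb lam (p.D k v) (Vx.pa k u (p.d k)) Z ≤ 3) ∧
    (∀ w', w' < 3 ^ p.g k → w' ≠ w → ∀ u', u' = 3 ^ p.g k * v + w' →
      occ p.nb lam (p.D k v) (Vx.pa k u (p.d k)) {Vx.pa k u' (p.d k)}
        ≤ 2 * (8 * lam) ^ (2 * p.d k)))

/-! ### Global Lyapunov inequality -/

/-- Coefficient of `J k` in the drift of `∑ c k * F k v`. -/
noncomputable def coef (p : Par) (lam : ℝ) (c : ℕ → ℝ) (k : ℕ) : ℝ :=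
  - c k
  + (if k = 0 then 0 else
      c (k - 1) * uh lam (p.n (k - 1)) * lam ^ 2 * eb lam (p.g (k - 1)) (p.d (k - 1)))
  + c (k + 1) * uh lam (p.n (k + 1)) * lam ^ 2 * (3 ^ p.g k * eb lam (p.g k) (p.d k))
  + (if k = 0 then 0 else
      c k * uh lam (p.n k) * lam ^ 2 * (3 ^ p.g (k - 1) * (2 * (8 * lam) ^ (2 * p.d (k - 1)))))

def S_GLOB : Prop := ∀ (p : Par), p.Ok → ∀ lam : ℝ, 0 < lam → lam ≤ 1 / 500 →
  (∀ k, 3 ^ (p.g k + 1) * (8 * lam) ^ p.d k ≤ 1 / 10) →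
  ∀ (c : ℕ → ℝ), (∀ k, 0 ≤ c k) → ∀ (K : ℕ) (X : Finset Vx),
  (∀ v, v < p.B K → X ∩ p.Q K v = ∅) →
  gen p.nb lam (fun X => ∑ k ∈ range K, ∑ v ∈ range (p.B k), c k * p.F lam k v X) X
    ≤ ∑ k ∈ range K, p.J k X * coef p lam c k

/-- Facts on `F`. -/
def S_FNN : Prop := ∀ (p : Par), p.Ok → ∀ lam : ℝ, 0 < lam → lam ≤ 1 / 500 → ∀ k v, v < p.B k →
  (∀ X, 0 ≤ p.F lam k v X) ∧ p.F lam 0 0 {Vx.cl 0 0 0} = uh lam (p.n 0) ∧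
  ((k, v) ≠ (0, 0) → p.F lam k v {Vx.cl 0 0 0} = 0)

/-- Drift of the number of link vertices, and bound for the rate. -/
def S_LINKNUM : Prop := ∀ (p : Par), p.Ok → ∀ lam : ℝ, 0 < lam → lam ≤ 1 / 500 →
  ∀ (K : ℕ) (X : Finset Vx), (∀ x ∈ X, p.Val x) → (∀ x ∈ X, lev x < K) →
  gen p.nb lam Lk X ≤ - (1 - 4 * lam) * Lk X + 2 * lam * ∑ k ∈ range K, p.J k X ∧
  ∑ x ∈ X, (1 + lam * ((p.nb x).card : ℝ)) ≤
    (1 + 4 * lam) * Lk X + ∑ k ∈ range K, p.J k X * (p.n k * (1 + lam * (p.n k + 1)))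

/-- Function for non-explosion. -/
def S_NEF : Prop := ∀ (p : Par), p.Ok → (∀ k, p.n (k + 1) = p.n k + 1) → ∀ lam : ℝ, 0 < lam →
  ∃ (f : Finset Vx → ℝ) (C : ℝ), 0 < C ∧ (∀ X, 1 ≤ f X) ∧
    ∀ X, (∀ x ∈ X, p.Val x) → gen p.nb lam f X ≤ C * f X ∧
      ∑ x ∈ X, (1 + lam * ((p.nb x).card : ℝ)) ≤ C * f X

/-! ### Stages -/

/-- Abstract stage lemma. -/
def S_STAGE : Prop := ∀ (V : Type) [DecidableEq V] (N : V → Finset V) (lam π : ℝ)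
  (Q R : Finset V) (x : V) (τ : Finset V → ℝ) (G : Finset V → Prop), 0 < lam → 0 < π →
  x ∈ Q → Disjoint Q R → (∀ X, τ X = τ (X ∩ R)) → (∀ X, 0 ≤ τ X ∧ τ X ≤ 1) →
  (∀ X, X ∩ R = ∅ → τ X = 0) →
  (∀ X, ¬ G X → lam * π * ind x X ≤ gen N lam τ X) →
  ∃ h : Finset V → ℝ, (∀ X, h X ≤ 1) ∧ (∀ X, X ∩ (Q ∪ R) = ∅ → h X ≤ 0) ∧
    (∀ X, ¬ G X → 0 ≤ gen N lam h X) ∧
    ∀ X, π / (1 + π * (lam * occ N lam Q x Q)) * (lam * occ N lam Q x X) ≤ h X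

/-- Forward function. `A j` are the splitter vertices used at level `j`. -/
def S_TF : Prop := ∀ (p : Par), p.Ok → ∀ lam : ℝ, 0 < lam → lam ≤ 1 / 500 →
  ∀ k v, v < p.B k → ∀ (c : ℕ) (A : ℕ → Finset ℕ), 1 ≤ c → c ≤ 3 → A 0 = {v} →
  (∀ j < p.g k, ∀ w ∈ A j, c ≤ ((A (j + 1)).filter fun w' => w' / 3 = w).card) →
  (∀ j ≤ p.g k, ∀ w ∈ A j, w < 3 ^ j * p.B k) →
  4 * lam * piF lam c (p.g k) (p.d k) * p.d k ≤ kap lam / 4 * eps lam (p.d k) →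
  16 * (1 + Real.log (p.n (k + 1))) ≤ lam * p.n (k + 1) →
  ∃ (τ : Finset Vx → ℝ) (R : Finset Vx), Disjoint (p.Q k v) R ∧ (∀ X, τ X = τ (X ∩ R)) ∧
    (∀ X, 0 ≤ τ X ∧ τ X ≤ 1) ∧ (∀ X, X ∩ R = ∅ → τ X = 0) ∧
    ∀ X, (∀ u ∈ A (p.g k), 2 * (X ∩ p.Q (k + 1) u).card < p.n (k + 1)) →
      lam * piF lam c (p.g k) (p.d k) * ind (Vx.cl k v 0) X ≤ gen p.nb lam τ X

/-- Backward function. -/
def S_TB : Prop := ∀ (p : Par), p.Ok → ∀ lam : ℝ, 0 < lam → lam ≤ 1 / 500 →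
  ∀ k u, u < p.B (k + 1) → 16 * (1 + Real.log (p.n k)) ≤ lam * p.n k →
  ∃ (τ : Finset Vx → ℝ) (R : Finset Vx), Disjoint (p.Q (k + 1) u) R ∧ (∀ X, τ X = τ (X ∩ R)) ∧
    (∀ X, 0 ≤ τ X ∧ τ X ≤ 1) ∧ (∀ X, X ∩ R = ∅ → τ X = 0) ∧
    ∀ X, 2 * (X ∩ p.Q k (u / 3 ^ p.g k)).card < p.n k →
      lam * piB lam (p.g k) (p.d k) * ind (Vx.cl (k + 1) u 0) X ≤ gen p.nb lam τ X

/-! ### Parameters -/

/-- The critical rate. -/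
noncomputable def lam0 : ℝ := 1 / 1000

/-- Key properties of the parameters. -/
structure Key (n0 : ℕ) (p : Par) : Prop where
  ok : p.Ok
  succ : ∀ k, p.n (k + 1) = p.n k + 1
  large : n0 ≤ p.n 0
  g_lo : ∀ k, (p.n (k + 1) : ℝ) ^ 14 ≤ 3 ^ p.g k
  g_hi : ∀ k, (3 : ℝ) ^ p.g k ≤ 3 * (p.n (k + 1) : ℝ) ^ 14
  a_hi : ∀ k, uh lam0 (p.n (k + 1)) * lam0 ^ 2 * eb lam0 (p.g k) (p.d k) ≤
    1 / (p.n (k + 1) : ℝ) ^ 8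
  a_lo : ∀ k, lam0 / (1 + lam0) / (p.n (k + 1) : ℝ) ^ 8 ≤
    uh lam0 (p.n (k + 1)) * lam0 ^ 2 * eb lam0 (p.g k) (p.d k)
  small : ∀ k, (3 : ℝ) ^ (p.g k + 1) * (16 * lam0) ^ p.d k ≤ 1 / 10
  sib : ∀ k, uh lam0 (p.n (k + 1)) * lam0 ^ 2 * (3 ^ p.g k * (2 * (8 * lam0) ^ (2 * p.d k))) ≤ 1 / 8
  d_hi : ∀ k, p.d k ≤ p.n (k + 1) ^ 2

/-- Existence of the parameters. -/
def S_PAR : Prop := ∀ n0 : ℕ, ∃ p : Par, Key n0 p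

/-- Side conditions of the stage functions. -/
def S_COND : Prop := ∃ n0 : ℕ, ∀ p : Par, Key n0 p →
  (∀ lam : ℝ, 0 < lam → lam ≤ 2 * lam0 → ∀ k, 3 ^ (p.g k + 1) * (8 * lam) ^ p.d k ≤ 1 / 10) ∧
  (∀ lam : ℝ, lam0 ≤ lam → lam ≤ 2 * lam0 → ∀ k,
    16 * (1 + Real.log (p.n k)) ≤ lam * p.n k ∧
    ∀ c : ℕ, 1 ≤ c → c ≤ 3 →
      4 * lam * piF lam c (p.g k) (p.d k) * p.d k ≤ kap lam / 4 * eps lam (p.d k))

/-- Lyapunov coefficients at the critical rate. -/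
def S_LY0 : Prop := ∃ n0 : ℕ, ∀ p : Par, Key n0 p →
  ∃ c : ℕ → ℝ, (∀ k, 0 < c k) ∧ ∀ k, coef p lam0 c k ≤ - c k / 2

/-- Lyapunov coefficients below the critical rate. -/
def S_LYL : Prop := ∃ n0 : ℕ, ∀ p : Par, Key n0 p → ∀ lam : ℝ, 0 < lam → lam < lam0 →
  ∃ c : ℕ → ℝ, (∀ k, 0 ≤ c k) ∧ ∀ k, coef p lam c k ≤ - (p.n k : ℝ) ^ 2

/-- Forward stages at the critical rate. -/
def S_Q0 : Prop := ∃ n0 : ℕ, ∀ p : Par, Key n0 p →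
  Summable (fun k => 1 - qst lam0 (piF lam0 3 (p.g k) (p.d k)) (p.n k))

/-- Forward and backward stages above the critical rate. -/
def S_QL : Prop := ∃ n0 : ℕ, ∀ p : Par, Key n0 p → ∀ lam : ℝ, lam0 < lam → lam ≤ 2 * lam0 →
  Summable (fun k => 1 - qst lam (piF lam 1 (p.g k) (p.d k)) (p.n k)) ∧
  Summable (fun k => 1 - qst lam (piB lam (p.g k) (p.d k)) (p.n (k + 1)))

end W817.CP
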