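import Pool.Agent.W817.CP.Defs
import Pool.Agent.W817.CP.Proc

/-!
Exact statements on the continuous time process (project CPX, MP_2b201f_pr).
-/

namespace W817.CP

open Finset MeasureTheory ProbabilityTheory
open scoped NNReal ENNReal

/-- First step decomposition of the law. -/
def S_A1 : Prop := ∀ (V : Type) [DecidableEq V] [Countable V] (N : V → Finset V) (lam : ℝ≥0),
  IsProbabilityMeasure (pathLaw N lam) ∧ ∀ X₀ : Finset V,
  (pathLaw N lam).map (fun ω => (ω 0 X₀, fun n => ω (n + 1))) =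
    (stepLaw N lam X₀).prod (pathLaw N lam)

/-- The embedded chain makes the total mean holding time infinite. -/
def NEx {V : Type} [DecidableEq V] (N : V → Finset V) (lam : ℝ≥0) : Prop :=
  ∀ X₀ : Finset V, ∀ᵐ ω ∂(pathLaw N lam), ¬ Summable (fun n => 1 / rate N lam (st X₀ ω n))

/-- The jump times are strictly increasing and tend to infinity. -/
def GoodT {V : Type} [DecidableEq V] (N : V → Finset V) (lam : ℝ≥0) : Prop :=
  ∀ X₀ : Finset V, ∀ᵐ ω ∂(pathLaw N lam), (∀ n, jt X₀ ω n < jt X₀ ω (n + 1)) ∧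
    Filter.Tendsto (jt X₀ ω) Filter.atTop Filter.atTop

/-- Non-explosion from a Lyapunov function. -/
def S_A2 : Prop := ∀ (V : Type) [DecidableEq V] [Countable V] (N : V → Finset V) (lam : ℝ≥0)
  (f : Finset V → ℝ) (C : ℝ), (∀ X, 1 ≤ f X) → (∀ X, gen N lam f X ≤ C * f X) →
  (∀ X, rate N lam X ≤ C * f X) → NEx N lam ∧ GoodT N lam

/-- Probability of ever hitting `G`. -/
noncomputable def hitP {V : Type} [DecidableEq V] (N : V → Finset V) (lam : ℝ≥0)
    (G : Finset V → Prop) (X : Finset V) : ℝ≥0∞ :=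
  pathLaw N lam {ω | ∃ n, G (st X ω n)}

/-- Lower bound of a hitting probability by a subharmonic function supported near `Γ`. -/
def S_A3 : Prop := ∀ (V : Type) [DecidableEq V] [Countable V] (N : V → Finset V) (lam : ℝ≥0),
  NEx N lam → (∀ y, {x | y ∈ N x}.Finite) → ∀ (Γ : Finset V) (h : Finset V → ℝ)
  (G : Finset V → Prop), (∀ X, h X ≤ 1) → (∀ X, ¬ G X → X ∩ Γ = ∅ → h X ≤ 0) →
  (∀ X, ¬ G X → 0 ≤ gen N lam h X) → ∀ X, ENNReal.ofReal (h X) ≤ hitP N lam G X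

/-- `S n` contains all configurations reachable from `{o}` in `n` steps. -/
def Reach {V : Type} [DecidableEq V] (N : V → Finset V) (o : V) (S : ℕ → Finset V → Prop) : Prop :=
  S 0 {o} ∧ ∀ n X, S n X → S (n + 1) X ∧ ∀ x ∈ X, S (n + 1) (X.erase x) ∧
    ∀ y ∈ N x, S (n + 1) (insert y X)

/-- Local extinction. -/
def S_A4 : Prop := ∀ (V : Type) [DecidableEq V] [Countable V] (N : V → Finset V) (lam : ℝ≥0)
  (o : V) (S : ℕ → Finset V → Prop) (C θ : ℝ), Reach N o S → NEx N lam → 0 < θ →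
  (∀ K, ∃ f : Finset V → ℝ, (∀ X, 0 ≤ f X) ∧ f {o} ≤ C ∧
    ∀ X, S K X → gen N lam f X ≤ - θ * ind o X) → ¬ SurvLoc N lam o

/-- Global extinction. -/
def S_A5 : Prop := ∀ (V : Type) [DecidableEq V] [Countable V] (N : V → Finset V) (lam : ℝ≥0)
  (o : V) (S : ℕ → Finset V → Prop) (C θ : ℝ), Reach N o S → 0 < θ →
  (∀ K, ∃ f : Finset V → ℝ, (∀ X, 0 ≤ f X) ∧ f {o} ≤ C ∧
    ∀ X, S K X → X ≠ ∅ → gen N lam f X ≤ - θ * rate N lam X) →
  ¬ SurvGlob N lam o ∧ ¬ SurvLoc N lam o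

/-- Global survival from a chain of stages. -/
def S_A6 : Prop := ∀ (V : Type) [DecidableEq V] [Countable V] (N : V → Finset V) (lam : ℝ≥0)
  (o : V) (G : ℕ → Finset V → Prop) (q : ℕ → ℝ), GoodT N lam →
  (∀ k X, G k X → k ≤ 2 * X.card) → (∀ k, 0 < q k ∧ q k ≤ 1) → Summable (fun k => 1 - q k) →
  (∀ k X, G k X → ENNReal.ofReal (q k) ≤ hitP N lam (G (k + 1)) X) →
  0 < hitP N lam (G 0) {o} → SurvGlob N lam o

/-- Local survival from forward and backward chains of stages. -/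
def S_A7 : Prop := ∀ (V : Type) [DecidableEq V] [Countable V] (N : V → Finset V) (lam : ℝ≥0)
  (o : V) (G : ℕ → Finset V → Prop) (q r : ℕ → ℝ) (r0 : ℝ), GoodT N lam →
  (∀ k X, G k X → k ≤ 2 * X.card) →
  (∀ k, 0 < q k ∧ q k ≤ 1) → Summable (fun k => 1 - q k) →
  (∀ k X, G k X → ENNReal.ofReal (q k) ≤ hitP N lam (G (k + 1)) X) →
  (∀ k, 0 < r k ∧ r k ≤ 1) → Summable (fun k => 1 - r k) →
  (∀ k X, G (k + 1) X → ENNReal.ofReal (r k) ≤ hitP N lam (G k) X) →
  0 < r0 → (∀ X, G 0 X → ENNReal.ofReal r0 ≤ hitP N lam (fun Y => o ∈ Y) X) →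
  0 < hitP N lam (G 0) {o} → SurvLoc N lam o

end W817.CP
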